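import Pool.Agent.Lib.MP_94c361_co_V.Gen
import Pool.Agent.Lib.MP_94c361_co_U.Gauss

/-!
# MP_94c361_co: the Gaussian integral for any number of copies
-/

set_option autoImplicit false

open scoped BigOperators
open MeasureTheory

namespace Pool.Agent.MP94v

variable {κ : Type} [Fintype κ] [DecidableEq κ] {n : ℕ}

/-- The monomial. -/
noncomputable def mono (T S : Fin n → κ) (z : κ → ℂ) : ℂ :=
  ∏ u, (z (T u) * (starRingEnd ℂ) (z (S u)))

theorem prod_cnt (T : Fin n → κ) (f : κ → ℂ) : ∏ u, f (T u) = ∏ c, f c ^ cnt T c := by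
  rw [← Finset.prod_fiberwise Finset.univ T (fun u => f (T u))]
  refine Finset.prod_congr rfl fun c _ => ?_
  unfold cnt
  rw [Finset.prod_congr rfl (g := fun _ => f c), Finset.prod_const]
  intro u hu
  rw [(Finset.mem_filter.1 hu).2]

theorem mono_eq (T S : Fin n → κ) (z : κ → ℂ) :
    mono T S z = ∏ c, (z c ^ cnt T c * ((starRingEnd ℂ) (z c)) ^ cnt S c) := by
  unfold mono
  rw [Finset.prod_mul_distrib, Finset.prod_mul_distrib, prod_cnt T z,
    prod_cnt S (fun c => (starRingEnd ℂ) (z c))]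

theorem mono_int {μ : Measure ℂ} [IsProbabilityMeasure μ]
    (hint : ∀ a b : ℕ, Integrable (fun z : ℂ => z ^ a * ((starRingEnd ℂ) z) ^ b) μ)
    (T S : Fin n → κ) : Integrable (mono T S) (Measure.pi fun _ : κ => μ) := by
  have h1 : mono T S = fun z : κ → ℂ => ∏ c, (z c ^ cnt T c * ((starRingEnd ℂ) (z c)) ^ cnt S c) :=
    funext fun z => mono_eq T S z
  rw [h1]
  exact Integrable.fintype_prod (f := fun c (x : ℂ) => x ^ cnt T c * ((starRingEnd ℂ) x) ^ cnt S c)
    (fun c => hint _ _)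

theorem mono_val {μ : Measure ℂ} [IsProbabilityMeasure μ]
    (hval : ∀ a b : ℕ, ∫ z : ℂ, z ^ a * ((starRingEnd ℂ) z) ^ b ∂μ =
      if a = b then (a.factorial : ℂ) else 0) (T S : Fin n → κ) :
    ∫ z, mono T S z ∂(Measure.pi fun _ : κ => μ) =
      (((Finset.univ.filter (fun σ : Equiv.Perm (Fin n) => ∀ u, S (σ u) = T u)).card : ℕ) : ℂ) := by
  rw [count_perm]
  have h1 : ∫ z, mono T S z ∂(Measure.pi fun _ : κ => μ) =
      ∏ c, ∫ x : ℂ, x ^ cnt T c * ((starRingEnd ℂ) x) ^ cnt S c ∂μ := by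
    rw [← integral_fintype_prod_eq_prod
      (fun c (x : ℂ) => x ^ cnt T c * ((starRingEnd ℂ) x) ^ cnt S c)]
    exact integral_congr_ae (Filter.Eventually.of_forall fun z => mono_eq T S z)
  rw [h1]
  simp_rw [hval]
  by_cases h : ∀ c, cnt T c = cnt S c
  · rw [if_pos h]
    push_cast
    exact Finset.prod_congr rfl fun c _ => if_pos (h c)
  · rw [if_neg h]
    push Not at h
    obtain ⟨c, hc⟩ := h
    rw [Finset.prod_eq_zero (Finset.mem_univ c) (if_neg hc)]
    simp

/-- The norm. -/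
noncomputable def nrm (n : ℕ) (z : κ → ℂ) : ℝ := (∑ c, ‖z c‖ ^ 2) ^ n

theorem nrm_eq (z : κ → ℂ) : nrm n z = (∑ T : Fin n → κ, mono T T z).re := by
  have h1 : ∑ T : Fin n → κ, mono T T z = ((nrm n z : ℝ) : ℂ) := by
    unfold mono nrm
    rw [← Fintype.sum_pow (fun c => z c * (starRingEnd ℂ) (z c)) n]
    push_cast
    congr 1
    refine Finset.sum_congr rfl fun c _ => ?_
    rw [Complex.mul_conj, Complex.normSq_eq_norm_sq]
    push_cast
    rfl
  rw [h1, Complex.ofReal_re]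

theorem nrm_int {μ : Measure ℂ} [IsProbabilityMeasure μ]
    (hint : ∀ a b : ℕ, Integrable (fun z : ℂ => z ^ a * ((starRingEnd ℂ) z) ^ b) μ) :
    Integrable (nrm (κ := κ) n) (Measure.pi fun _ : κ => μ) := by
  have h1 : nrm (κ := κ) n = fun z => RCLike.re (∑ T : Fin n → κ, mono T T z) :=
    funext fun z => nrm_eq z
  rw [h1]
  exact (integrable_finsetSum _ fun T _ => mono_int hint T T).re

theorem nrm_val {μ : Measure ℂ} [IsProbabilityMeasure μ]
    (hint : ∀ a b : ℕ, Integrable (fun z : ℂ => z ^ a * ((starRingEnd ℂ) z) ^ b) μ)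
    (hval : ∀ a b : ℕ, ∫ z : ℂ, z ^ a * ((starRingEnd ℂ) z) ^ b ∂μ =
      if a = b then (a.factorial : ℂ) else 0) :
    ∫ z, nrm (κ := κ) n z ∂(Measure.pi fun _ : κ => μ) ≤
      ((n.factorial * (n + 1) ^ Fintype.card κ : ℕ) : ℝ) := by
  have h1 : ∫ z, nrm (κ := κ) n z ∂(Measure.pi fun _ : κ => μ) =
      RCLike.re (∫ z, ∑ T : Fin n → κ, mono T T z ∂(Measure.pi fun _ : κ => μ)) := by
    rw [← integral_re (integrable_finsetSum _ fun T _ => mono_int hint T T)]
    exact integral_congr_ae (Filter.Eventually.of_forall fun z => nrm_eq z)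
  rw [h1, integral_finsetSum _ fun T _ => mono_int hint T T]
  have h2 : ∀ T : Fin n → κ, ∫ z, mono T T z ∂(Measure.pi fun _ : κ => μ) =
      ((∏ c, (cnt T c).factorial : ℕ) : ℂ) := by
    intro T
    rw [mono_val hval, count_perm, if_pos fun _ => rfl]
  rw [Finset.sum_congr rfl fun T _ => h2 T]
  have h3 := sum_fact (κ := κ) n count_perm
  rw [← Nat.cast_sum]
  change ((((∑ T : Fin n → κ, ∏ c, (cnt T c).factorial : ℕ)) : ℂ)).re ≤ _
  rw [Complex.natCast_re]
  exact_mod_cast h3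

section

variable (R : κ → κ → κ → κ → Prop) [∀ a b c d, Decidable (R a b c d)] (s : κ → ℂ)

/-- The local form. -/
noncomputable def gloc (z w : κ → ℂ) : ℂ :=
  ∑ T : κ, ∑ S : κ, ∑ T' : κ, ∑ S' : κ, if R T S T' S' then
    s T * s T' * (z T * (starRingEnd ℂ) (z S) * (w T' * (starRingEnd ℂ) (w S'))) else 0

theorem gloc_eq (z w : κ → ℂ) : gloc R s z w = ∑ q : κ × κ × κ × κ,
    if R q.1 q.2.1 q.2.2.1 q.2.2.2 then
      s q.1 * s q.2.2.1 * (z q.1 * (starRingEnd ℂ) (z q.2.1) *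
        (w q.2.2.1 * (starRingEnd ℂ) (w q.2.2.2))) else 0 := by
  unfold gloc
  simp only [Fintype.sum_prod_type]

/-- The sign. -/
noncomputable def sgn (T S T' S' : Fin n → κ) : ℂ :=
  if (∀ u, R (T u) (S u) (T' u) (S' u)) then ∏ u, (s (T u) * s (T' u)) else 0

theorem gloc_pow (z w : κ → ℂ) : gloc R s z w ^ n = ∑ p : Fin n → κ × κ × κ × κ,
    sgn R s (fun u => (p u).1) (fun u => (p u).2.1) (fun u => (p u).2.2.1)
        (fun u => (p u).2.2.2) *
      (mono (fun u => (p u).1) (fun u => (p u).2.1) z *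
        mono (fun u => (p u).2.2.1) (fun u => (p u).2.2.2) w) := by
  rw [gloc_eq, Fintype.sum_pow]
  refine Finset.sum_congr rfl fun p _ => ?_
  unfold sgn mono
  by_cases h : ∀ u, R (p u).1 (p u).2.1 (p u).2.2.1 (p u).2.2.2
  · rw [if_pos h, ← Finset.prod_mul_distrib, ← Finset.prod_mul_distrib]
    exact Finset.prod_congr rfl fun u _ => if_pos (h u)
  · rw [if_neg h, zero_mul]
    push Not at h
    obtain ⟨u, hu⟩ := h
    exact Finset.prod_eq_zero (Finset.mem_univ u) (if_neg hu)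

end

end Pool.Agent.MP94v
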