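import Mathlib

/-!
# MP_94c361_co: Bessel's inequality for words with pairwise odd distance
-/

set_option autoImplicit false

open scoped BigOperators

namespace Pool.Agent.MP94v

/-- Labels of four copies. -/
abbrev L4 := Fin 4 → Bool

/-- Words in the letters `0, 1, 2`. -/
abbrev W4 := Fin 4 → Fin 3

/-- The factor of a letter. -/
noncomputable def ff (a : Fin 3) (t : Bool) : ℂ :=
  if a = 0 then (if t then -1 else 1) else if a = 1 then 1 else (if t then Complex.I else -Complex.I)

/-- The shift. -/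
def sh (a : W4) (T : L4) : L4 := fun i => xor (T i) (decide (a i ≠ 0))

/-- The image of a vector. -/
noncomputable def vec (a : W4) (z : L4 → ℂ) (T : L4) : ℂ := (∏ i, ff (a i) (T i)) * z (sh a T)

/-- The value. -/
noncomputable def rr (a : W4) (z : L4 → ℂ) : ℂ := ∑ T, (starRingEnd ℂ) (z T) * vec a z T

/-- abstract Bessel -/
theorem bessel {ι : Type} [Fintype ι] [DecidableEq ι] (v : ι → L4 → ℂ) (z : L4 → ℂ) (N : ℝ)
    (hz : ∑ T, ‖z T‖ ^ 2 = N)
    (hv : ∀ i, ∑ T, ‖v i T‖ ^ 2 = N)
    (ho : ∀ i j, i ≠ j → (∑ T, (starRingEnd ℂ) (v i T) * v j T).re = 0) :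
    ∑ i, (∑ T, (starRingEnd ℂ) (z T) * v i T).re ^ 2 ≤ N ^ 2 := by
  set a : ι → ℝ := fun i => (∑ T, (starRingEnd ℂ) (z T) * v i T).re with ha
  have hN : 0 ≤ N := by rw [← hz]; positivity
  set E : ℝ := ∑ i, a i ^ 2 with hE
  have hE0 : 0 ≤ E := Finset.sum_nonneg fun _ _ => sq_nonneg _
  -- expansion
  have key : ∑ T, ‖(N : ℂ) * z T - ∑ i, (a i : ℂ) * v i T‖ ^ 2 = N * (N ^ 2 - E) := by
    have h1 : ∀ T, ‖(N : ℂ) * z T - ∑ i, (a i : ℂ) * v i T‖ ^ 2 =
        N ^ 2 * ‖z T‖ ^ 2 - 2 * N * ∑ i, a i * ((starRingEnd ℂ) (z T) * v i T).re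
          + ∑ i, ∑ j, a i * a j * ((starRingEnd ℂ) (v i T) * v j T).re := by
      intro T
      rw [Complex.sq_norm, Complex.normSq_sub]
      have e1 : Complex.normSq ((N : ℂ) * z T) = N ^ 2 * ‖z T‖ ^ 2 := by
        rw [map_mul, Complex.normSq_ofReal, Complex.sq_norm]; ring
      have e2 : ((N : ℂ) * z T * (starRingEnd ℂ) (∑ i, (a i : ℂ) * v i T)).re =
          N * ∑ i, a i * ((starRingEnd ℂ) (z T) * v i T).re := by
        rw [map_sum, Finset.mul_sum, Complex.re_sum, Finset.mul_sum]
        refine Finset.sum_congr rfl fun i _ => ?_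
        simp only [map_mul, Complex.conj_ofReal, Complex.mul_re, Complex.mul_im, Complex.conj_re,
          Complex.conj_im, Complex.ofReal_re, Complex.ofReal_im]
        ring
      have e3 : Complex.normSq (∑ i, (a i : ℂ) * v i T) =
          ∑ i, ∑ j, a i * a j * ((starRingEnd ℂ) (v i T) * v j T).re := by
        have : ((Complex.normSq (∑ i, (a i : ℂ) * v i T) : ℝ) : ℂ) =
            (∑ i, (starRingEnd ℂ) ((a i : ℂ) * v i T)) * ∑ j, (a j : ℂ) * v j T := by
          rw [Complex.normSq_eq_conj_mul_self, map_sum]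
        have h2 := congrArg Complex.re this
        rw [Complex.ofReal_re] at h2
        rw [h2, Finset.sum_mul_sum, Complex.re_sum]
        refine Finset.sum_congr rfl fun i _ => ?_
        rw [Complex.re_sum]
        refine Finset.sum_congr rfl fun j _ => ?_
        simp only [map_mul, Complex.conj_ofReal, Complex.mul_re, Complex.mul_im, Complex.conj_re,
          Complex.conj_im, Complex.ofReal_re, Complex.ofReal_im]
        ring
      rw [e1, e2, e3]
      ring
    simp only [h1]
    rw [Finset.sum_add_distrib, Finset.sum_sub_distrib, ← Finset.mul_sum, hz, ← Finset.mul_sum,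
      Finset.sum_comm]
    have h2 : ∑ i, ∑ T, a i * ((starRingEnd ℂ) (z T) * v i T).re = E := by
      rw [hE]
      refine Finset.sum_congr rfl fun i _ => ?_
      rw [← Finset.mul_sum, ← Complex.re_sum, sq]
    have h3 : ∑ T, ∑ i, ∑ j, a i * a j * ((starRingEnd ℂ) (v i T) * v j T).re = E * N := by
      rw [Finset.sum_comm, hE, Finset.sum_mul]
      refine Finset.sum_congr rfl fun i _ => ?_
      rw [Finset.sum_comm]
      rw [Finset.sum_eq_single i]
      · have h4 : ∀ T, ((starRingEnd ℂ) (v i T) * v i T).re = ‖v i T‖ ^ 2 := by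
          intro T
          rw [← Complex.normSq_eq_conj_mul_self, Complex.ofReal_re, Complex.sq_norm]
        simp only [h4]
        rw [← Finset.mul_sum, hv i, sq]
      · intro j _ hj
        rw [← Finset.mul_sum, ← Complex.re_sum, ho i j (Ne.symm hj), mul_zero]
      · intro h
        exact absurd (Finset.mem_univ _) h
    rw [h2, h3]
    ring
  have hpos : 0 ≤ N * (N ^ 2 - E) := by
    rw [← key]
    exact Finset.sum_nonneg fun _ _ => sq_nonneg _
  rcases hN.eq_or_lt with h0 | h0
  · -- N = 0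
    have hz0 : ∀ T, z T = 0 := by
      intro T
      have h1 : ∑ T, ‖z T‖ ^ 2 = 0 := by rw [hz, ← h0]
      have h2 := (Finset.sum_eq_zero_iff_of_nonneg (fun T _ => sq_nonneg ‖z T‖)).1 h1 T
        (Finset.mem_univ _)
      exact norm_eq_zero.1 (pow_eq_zero_iff (two_ne_zero) |>.1 h2)
    have h3 : ∀ i, a i = 0 := by
      intro i
      rw [ha]
      simp [hz0]
    have : E = 0 := by rw [hE]; simp [h3]
    rw [this]
    positivity
  · have := (mul_nonneg_iff_of_pos_left h0).1 hpos
    linarith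


theorem norm_ff (a : Fin 3) (t : Bool) : ‖ff a t‖ = 1 := by
  unfold ff
  split_ifs <;> simp

theorem sh_sh (a : W4) (T : L4) : sh a (sh a T) = T := by
  funext i
  simp [sh]

/-- The shift as an equivalence. -/
def shE (a : W4) : L4 ≃ L4 := ⟨sh a, sh a, sh_sh a, sh_sh a⟩

theorem norm_vec (a : W4) (z : L4 → ℂ) (T : L4) : ‖vec a z T‖ = ‖z (sh a T)‖ := by
  unfold vec
  rw [norm_mul, norm_prod]
  simp [norm_ff]

theorem sum_vec (a : W4) (z : L4 → ℂ) : ∑ T, ‖vec a z T‖ ^ 2 = ∑ T, ‖z T‖ ^ 2 := by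
  simp only [norm_vec]
  exact (shE a).sum_comp (fun T => ‖z T‖ ^ 2)

/-- The distance of two words. -/
def hd (a b : W4) : ℕ := (Finset.univ.filter (fun i => a i ≠ b i)).card

theorem ff_site (a b : Fin 3) (t : Bool) :
    (starRingEnd ℂ) (ff a (xor (xor t (decide (a ≠ 0))) (decide (b ≠ 0)))) *
      ff b (xor (xor t (decide (a ≠ 0))) (decide (b ≠ 0))) =
    (if a ≠ b then -1 else 1) * (starRingEnd ℂ) ((starRingEnd ℂ) (ff a t) * ff b t) := by
  fin_cases a <;> fin_cases b <;> cases t <;> simp [ff]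

theorem ortho (a b : W4) (z : L4 → ℂ) (h : Odd (hd a b)) :
    (∑ T, (starRingEnd ℂ) (vec a z T) * vec b z T).re = 0 := by
  set G : L4 → ℂ := fun T => (starRingEnd ℂ) (vec a z T) * vec b z T with hG
  have h1 : ∀ T, G (sh b (sh a T)) = - (starRingEnd ℂ) (G T) := by
    intro T
    have hs1 : sh a (sh b (sh a T)) = sh b T := by
      funext i
      simp only [sh]
      cases T i <;> cases decide (a i ≠ 0) <;> cases decide (b i ≠ 0) <;> rfl
    have hs2 : sh b (sh b (sh a T)) = sh a T := sh_sh b _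
    have hp : (∏ i, (starRingEnd ℂ) (ff (a i) (sh b (sh a T) i))) *
        (∏ i, ff (b i) (sh b (sh a T) i)) =
        - (starRingEnd ℂ) ((∏ i, (starRingEnd ℂ) (ff (a i) (T i))) * ∏ i, ff (b i) (T i)) := by
      rw [← Finset.prod_mul_distrib, ← Finset.prod_mul_distrib, map_prod]
      have h2 : ∀ i, (starRingEnd ℂ) (ff (a i) (sh b (sh a T) i)) * ff (b i) (sh b (sh a T) i) =
          (if a i ≠ b i then -1 else 1) *
            (starRingEnd ℂ) ((starRingEnd ℂ) (ff (a i) (T i)) * ff (b i) (T i)) := by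
        intro i
        simp only [sh]
        exact ff_site (a i) (b i) (T i)
      simp only [h2]
      rw [Finset.prod_mul_distrib, Finset.prod_ite, Finset.prod_const, Finset.prod_const_one,
        mul_one]
      have h3 : ((-1 : ℂ)) ^ (Finset.univ.filter (fun i => a i ≠ b i)).card = -1 := h.neg_one_pow
      rw [h3, neg_one_mul]
    simp only [hG, vec, map_mul, map_prod, hs1, hs2] at hp ⊢
    simp only [Complex.conj_conj] at hp ⊢
    linear_combination ((starRingEnd ℂ) (z (sh b T)) * z (sh a T)) * hp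
  have h2 : ∑ T, G T = ∑ T, G (sh b (sh a T)) :=
    (((shE a).trans (shE b)).sum_comp G).symm
  have h3 : ∑ T, G T = - (starRingEnd ℂ) (∑ T, G T) := by
    conv_lhs => rw [h2]
    simp only [h1]
    rw [Finset.sum_neg_distrib, map_sum]
  have h4 := congrArg Complex.re h3
  rw [Complex.neg_re, Complex.conj_re] at h4
  linarith

/-- Bessel's inequality for words with pairwise odd distance. -/
theorem clique {ι : Type} [Fintype ι] [DecidableEq ι] (w : ι → W4)
    (hw : ∀ i j, i ≠ j → Odd (hd (w i) (w j))) (z : L4 → ℂ) :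
    ∑ i, (rr (w i) z).re ^ 2 ≤ (∑ T, ‖z T‖ ^ 2) ^ 2 :=
  bessel (fun i => vec (w i) z) z _ rfl (fun i => sum_vec _ _) fun i j hij =>
    ortho _ _ z (hw i j hij)

end Pool.Agent.MP94v
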