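import Pool.Agent.Lib.MP_94c361_co_V.Asm

/-!
# MP_94c361_co: the sum over all pairs of permutations, any number of copies
-/

set_option autoImplicit false

open scoped BigOperators
open MeasureTheory

namespace Pool.Agent.MP94v

variable {κ : Type} [Fintype κ] [DecidableEq κ] {n : ℕ}

/-- The number of permutations which carry `T` to `S`. -/
def nperm (T S : Fin n → κ) : ℕ :=
  (Finset.univ.filter (fun σ : Equiv.Perm (Fin n) => ∀ u, S (σ u) = T u)).card

theorem perm_sum (F : (Fin n → κ) → (Fin n → κ) → ℂ) :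
    ∑ σ : Equiv.Perm (Fin n), ∑ T : Fin n → κ, F T (fun u => T (σ.symm u)) =
      ∑ T : Fin n → κ, ∑ S : Fin n → κ, (nperm T S : ℂ) * F T S := by
  rw [Finset.sum_comm]
  refine Finset.sum_congr rfl fun T _ => ?_
  rw [← Finset.sum_fiberwise Finset.univ
    (fun (σ : Equiv.Perm (Fin n)) => (fun u => T (σ.symm u) : Fin n → κ))]
  refine Finset.sum_congr rfl fun S _ => ?_
  have h1 : (Finset.univ.filter (fun σ : Equiv.Perm (Fin n) => (fun u => T (σ.symm u)) = S)) =
      Finset.univ.filter (fun σ : Equiv.Perm (Fin n) => ∀ u, S (σ u) = T u) := by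
    ext σ
    simp only [Finset.mem_filter, Finset.mem_univ, true_and]
    constructor
    · rintro rfl u
      change T (σ.symm (σ u)) = T u
      rw [Equiv.symm_apply_apply]
    · intro h
      funext u
      have h2 := h (σ.symm u)
      rw [Equiv.apply_symm_apply] at h2
      exact h2.symm
  unfold nperm
  rw [← h1, ← nsmul_eq_mul, ← Finset.sum_const]
  refine Finset.sum_congr rfl fun σ hσ => ?_
  rw [(Finset.mem_filter.1 hσ).2]

theorem four_sum (G : (Fin n → κ) → (Fin n → κ) → (Fin n → κ) → (Fin n → κ) → ℂ) :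
    ∑ p : Fin n → κ × κ × κ × κ, G (fun u => (p u).1) (fun u => (p u).2.1)
        (fun u => (p u).2.2.1) (fun u => (p u).2.2.2) =
      ∑ T : Fin n → κ, ∑ S : Fin n → κ, ∑ T' : Fin n → κ, ∑ S' : Fin n → κ, G T S T' S' := by
  have h1 : ∑ T : Fin n → κ, ∑ S : Fin n → κ, ∑ T' : Fin n → κ, ∑ S' : Fin n → κ, G T S T' S' =
      ∑ q : (Fin n → κ) × (Fin n → κ) × (Fin n → κ) × (Fin n → κ),
        G q.1 q.2.1 q.2.2.1 q.2.2.2 := by
    simp only [Fintype.sum_prod_type]
  rw [h1]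
  refine Fintype.sum_equiv
    { toFun := fun p => ((fun u => (p u).1), (fun u => (p u).2.1), (fun u => (p u).2.2.1),
        (fun u => (p u).2.2.2))
      invFun := fun q u => (q.1 u, q.2.1 u, q.2.2.1 u, q.2.2.2 u)
      left_inv := fun p => rfl
      right_inv := fun q => rfl } _ _ fun p => rfl

variable (R : κ → κ → κ → κ → Prop) [∀ a b c d, Decidable (R a b c d)] (s : κ → ℂ)

/-- The sum over all pairs of permutations. -/
noncomputable def tot (n : ℕ) : ℂ :=
  ∑ σ : Equiv.Perm (Fin n), ∑ τ : Equiv.Perm (Fin n), ∑ T : Fin n → κ, ∑ T' : Fin n → κ,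
    sgn R s T (fun u => T (σ.symm u)) T' (fun u => T' (τ.symm u))

theorem tot_eq : tot R s n = ∑ T : Fin n → κ, ∑ S : Fin n → κ, ∑ T' : Fin n → κ,
    ∑ S' : Fin n → κ, sgn R s T S T' S' * ((nperm T S : ℂ) * (nperm T' S' : ℂ)) := by
  unfold tot
  have h1 : ∀ σ : Equiv.Perm (Fin n), ∑ τ : Equiv.Perm (Fin n), ∑ T : Fin n → κ,
      ∑ T' : Fin n → κ, sgn R s T (fun u => T (σ.symm u)) T' (fun u => T' (τ.symm u)) =
      ∑ T : Fin n → κ, (fun (T S : Fin n → κ) => ∑ T' : Fin n → κ, ∑ S' : Fin n → κ,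
        (nperm T' S' : ℂ) * sgn R s T S T' S') T (fun u => T (σ.symm u)) := by
    intro σ
    rw [Finset.sum_comm]
    refine Finset.sum_congr rfl fun T _ => ?_
    exact perm_sum (fun T' S' => sgn R s T (fun u => T (σ.symm u)) T' S')
  rw [Finset.sum_congr rfl fun σ _ => h1 σ, perm_sum (fun (T S : Fin n → κ) =>
    ∑ T' : Fin n → κ, ∑ S' : Fin n → κ, (nperm T' S' : ℂ) * sgn R s T S T' S')]
  refine Finset.sum_congr rfl fun T _ => Finset.sum_congr rfl fun S _ => ?_
  rw [Finset.mul_sum]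
  refine Finset.sum_congr rfl fun T' _ => ?_
  rw [Finset.mul_sum]
  refine Finset.sum_congr rfl fun S' _ => ?_
  ring

theorem tot_int {μ : Measure ℂ} [IsProbabilityMeasure μ]
    (hint : ∀ a b : ℕ, Integrable (fun z : ℂ => z ^ a * ((starRingEnd ℂ) z) ^ b) μ)
    (hval : ∀ a b : ℕ, ∫ z : ℂ, z ^ a * ((starRingEnd ℂ) z) ^ b ∂μ =
      if a = b then (a.factorial : ℂ) else 0) :
    ∫ y : (κ → ℂ) × (κ → ℂ), gloc R s y.1 y.2 ^ n
      ∂((Measure.pi fun _ : κ => μ).prod (Measure.pi fun _ : κ => μ)) = tot R s n := by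
  rw [tot_eq, ← four_sum]
  simp_rw [gloc_pow]
  rw [integral_finsetSum]
  · refine Finset.sum_congr rfl fun p _ => ?_
    rw [integral_const_mul, integral_prod_mul, mono_val hval, mono_val hval]
    rfl
  · intro p _
    exact ((mono_int hint _ _).mul_prod (mono_int hint _ _)).const_mul _

theorem gen_bound (C : ℝ) (hC : 0 ≤ C)
    (hloc : ∀ z w : κ → ℂ, ‖gloc R s z w‖ ≤ C * (∑ c, ‖z c‖ ^ 2) * (∑ c, ‖w c‖ ^ 2)) :
    ‖tot R s n‖ ≤ C ^ n * ((n.factorial * (n + 1) ^ Fintype.card κ : ℕ) : ℝ) ^ 2 := by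
  obtain ⟨μ, hμ, hint, hval⟩ := Pool.Agent.MP94u.exists_gauss
  rw [← tot_int R s hint hval]
  have h1 : Integrable (fun y : (κ → ℂ) × (κ → ℂ) => C ^ n * (nrm n y.1 * nrm n y.2))
      ((Measure.pi fun _ : κ => μ).prod (Measure.pi fun _ : κ => μ)) :=
    ((nrm_int hint).mul_prod (nrm_int hint)).const_mul _
  have h2 : ∀ z : κ → ℂ, 0 ≤ nrm n z := fun z =>
    pow_nonneg (Finset.sum_nonneg fun _ _ => sq_nonneg _) n
  refine (norm_integral_le_of_norm_le h1 (Filter.Eventually.of_forall fun y => ?_)).trans ?_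
  · rw [norm_pow]
    refine (pow_le_pow_left₀ (norm_nonneg _) (hloc y.1 y.2) n).trans (le_of_eq ?_)
    unfold nrm
    rw [mul_pow, mul_pow, mul_assoc]
  · rw [integral_const_mul, integral_prod_mul]
    refine mul_le_mul_of_nonneg_left ?_ (pow_nonneg hC n)
    rw [sq]
    exact mul_le_mul (nrm_val hint hval) (nrm_val hint hval)
      (integral_nonneg fun z => h2 z) (by positivity)

end Pool.Agent.MP94v
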