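import Pool.Agent.Lib.MP_94c361_co_V.Bes

/-!
# MP_94c361_co: a fractional cover of the words by cliques
-/

set_option autoImplicit false

open scoped BigOperators

namespace Pool.Agent.MP94v

/-- A line. -/
def lineW (i : Fin 4) (t : Fin 3) : W4 := fun j => if j = i then t else 0

/-- A nonzero letter. -/
def lt (t : Bool) : Fin 3 := if t then 1 else 2

/-- A set of six words. -/
def pathW (p : Fin 4) (m : Fin 3) (b : Bool) (j : Fin 3 × Bool) : W4 := fun i =>
  if i = p then (if j.1 = 0 then 1 else if j.1 = 1 then 2 else 0)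
  else if i = p + 1 + Fin.castSucc m then (if j.1 = 2 then lt j.2 else 0)
  else if i = p + 1 + Fin.castSucc (m + 1) then (if j.1 = (if b then 0 else 1) then lt j.2 else 0)
  else (if j.1 = (if b then 1 else 0) then lt j.2 else 0)

/-- A sign. -/
def sgn3 (b : Bool) (x : Fin 3) : Fin 3 := if b then -x else x

/-- A coset of a tetracode. -/
def codeW (s : Bool × Bool × Bool) (v : Fin 3 × Fin 3) (w : Fin 3 × Fin 3) : W4 :=
  ![w.1, w.2, sgn3 s.2.1 (w.1 + sgn3 s.1 w.2) + v.1, sgn3 s.2.2 (w.1 - sgn3 s.1 w.2) + v.2]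

/-- The weight of a coset. -/
def lam (v : Fin 3 × Fin 3) : ℕ := if v = (0, 0) then 5 else 1

/-- The weight of a word. -/
def wt (a : W4) : ℕ := ∏ i, (if a i = 0 then 2 else 1)

theorem line_odd (i : Fin 4) (t t' : Fin 3) (h : t ≠ t') : Odd (hd (lineW i t) (lineW i t')) := by
  revert i t t'
  decide +kernel

theorem path_odd (p : Fin 4) (m : Fin 3) (b : Bool) (j j' : Fin 3 × Bool) (h : j ≠ j') :
    Odd (hd (pathW p m b j) (pathW p m b j')) := by
  revert p m b j j'
  decide +kernel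

theorem code_odd (s : Bool × Bool × Bool) (v w w' : Fin 3 × Fin 3) (h : w ≠ w') :
    Odd (hd (codeW s v w) (codeW s v w')) := by
  revert s v w w'
  decide +kernel

/-- The cover. -/
def cov (a : W4) : ℕ :=
  22 * ∑ i : Fin 4, ∑ t : Fin 3, (if lineW i t = a then 1 else 0)
  + 6 * ∑ p : Fin 4, ∑ m : Fin 3, ∑ b : Bool, ∑ j : Fin 3 × Bool, (if pathW p m b j = a then 1 else 0)
  + ∑ s : Bool × Bool × Bool, ∑ v : Fin 3 × Fin 3, lam v *
      ∑ w : Fin 3 × Fin 3, (if codeW s v w = a then 1 else 0)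

theorem cov_ge' : ∀ a b c d : Fin 3, 8 * wt ![a, b, c, d] ≤ cov ![a, b, c, d] := by
  decide +kernel

theorem cov_ge (a : W4) : 8 * wt a ≤ cov a := by
  have h := cov_ge' (a 0) (a 1) (a 2) (a 3)
  have e : ![a 0, a 1, a 2, a 3] = a := by
    funext i
    fin_cases i <;> rfl
  rwa [e] at h

end Pool.Agent.MP94v
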