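import Pool.Agent.Lib.MP_94c361_co_V.Bnd
import Pool.Agent.Lib.MP_94c361_co_U.Defs
import Pool.Agent.Lib.MP_94c361_co_H.Abs

/-!
# MP_94c361_co: the powers of the coefficient
-/

set_option autoImplicit false

open scoped BigOperators

namespace Pool.Agent.MP94v

open Pool.Agent.MP94h

variable {n : ℕ}

/-- The relation of the local form. -/
def Rm (m : ℕ) (T S T' S' : Fin m → Bool) : Prop :=
  ∀ j, Pool.Agent.MP94u.bi (T j) - Pool.Agent.MP94u.bi (S j) =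
    Pool.Agent.MP94u.bi (T' j) - Pool.Agent.MP94u.bi (S' j)

instance (m : ℕ) (a b c d : Fin m → Bool) : Decidable (Rm m a b c d) := by
  unfold Rm
  infer_instance

/-- The sign of the local form. -/
noncomputable def sm (m : ℕ) (T : Fin m → Bool) : ℂ := ∏ j, Pool.Agent.MP94u.sb (T j)

theorem sg_cast (x : Fin n → Bool) : ((sg x : ℤ) : ℂ) = ∏ u, Pool.Agent.MP94u.sb (x u) := by
  unfold sg Pool.Agent.MP94u.sb
  push_cast
  refine Finset.prod_congr rfl fun u _ => ?_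
  split_ifs <;> simp

theorem hc_pow (m : ℕ) (σ τ : Equiv.Perm (Fin n)) : ((hc σ τ : ℤ) : ℂ) ^ m =
    ((-1) ^ n) ^ m * ∑ T : Fin n → Fin m → Bool, ∑ T' : Fin n → Fin m → Bool,
      sgn (Rm m) (sm m) T (fun u => T (σ.symm u)) T' (fun u => T' (τ.symm u)) := by
  rw [hc_eq]
  have h0 : (((-1) ^ n * ∑ x : Fin n → Bool, ∑ y : Fin n → Bool,
      (if df σ x = df τ y then sg x * sg y else 0) : ℤ) : ℂ) =
      (-1) ^ n * ∑ q : (Fin n → Bool) × (Fin n → Bool),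
        (if df σ q.1 = df τ q.2 then ((sg q.1 : ℤ) : ℂ) * ((sg q.2 : ℤ) : ℂ) else 0) := by
    rw [Fintype.sum_prod_type]
    push_cast
    rfl
  rw [h0, mul_pow, Fintype.sum_pow]
  congr 1
  have h1 : ∑ T : Fin n → Fin m → Bool, ∑ T' : Fin n → Fin m → Bool,
      sgn (Rm m) (sm m) T (fun u => T (σ.symm u)) T' (fun u => T' (τ.symm u)) =
      ∑ Q : (Fin n → Fin m → Bool) × (Fin n → Fin m → Bool),
        sgn (Rm m) (sm m) Q.1 (fun u => Q.1 (σ.symm u)) Q.2 (fun u => Q.2 (τ.symm u)) := by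
    rw [Fintype.sum_prod_type]
  rw [h1]
  refine Fintype.sum_equiv
    { toFun := fun p => ((fun u j => (p j).1 u), (fun u j => (p j).2 u))
      invFun := fun Q j => ((fun u => Q.1 u j), (fun u => Q.2 u j))
      left_inv := fun p => rfl
      right_inv := fun Q => rfl } _ _ fun p => ?_
  change _ = sgn (Rm m) (sm m) (fun u j => (p j).1 u) (fun u j => (p j).1 (σ.symm u))
    (fun u j => (p j).2 u) (fun u j => (p j).2 (τ.symm u))
  unfold sgn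
  have h2 : (∀ u, Rm m (fun j => (p j).1 u) (fun j => (p j).1 (σ.symm u))
      (fun j => (p j).2 u) (fun j => (p j).2 (τ.symm u))) ↔ ∀ j, df σ (p j).1 = df τ (p j).2 := by
    constructor
    · intro h j
      funext u
      exact h u j
    · intro h u j
      exact congrFun (h j) u
  by_cases h : ∀ j, df σ (p j).1 = df τ (p j).2
  · rw [if_pos (h2.2 h)]
    have h3 : ∏ j, (if df σ (p j).1 = df τ (p j).2 then
        ((sg (p j).1 : ℤ) : ℂ) * ((sg (p j).2 : ℤ) : ℂ) else 0) =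
        ∏ j, (((sg (p j).1 : ℤ) : ℂ) * ((sg (p j).2 : ℤ) : ℂ)) :=
      Finset.prod_congr rfl fun j _ => if_pos (h j)
    rw [h3, Finset.prod_mul_distrib, Finset.prod_mul_distrib]
    unfold sm
    congr 1
    · rw [Finset.prod_comm]
      exact Finset.prod_congr rfl fun j _ => sg_cast _
    · rw [Finset.prod_comm]
      exact Finset.prod_congr rfl fun j _ => sg_cast _
  · rw [if_neg (fun h' => h (h2.1 h'))]
    push Not at h
    obtain ⟨j, hj⟩ := h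
    exact Finset.prod_eq_zero (Finset.mem_univ j) (if_neg hj)

theorem sum_hc_pow (m : ℕ) (hm : Even m) :
    ((∑ σ : Equiv.Perm (Fin n), ∑ τ : Equiv.Perm (Fin n), (hc σ τ) ^ m : ℤ) : ℂ) =
      tot (Rm m) (sm m) n := by
  unfold tot
  push_cast
  refine Finset.sum_congr rfl fun σ _ => Finset.sum_congr rfl fun τ _ => ?_
  rw [hc_pow, ← pow_mul, mul_comm n m, pow_mul, hm.neg_one_pow, one_pow, one_mul]

theorem full_pow_le (m : ℕ) (hm : Even m) (C : ℝ) (hC : 0 ≤ C)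
    (hloc : ∀ z w : (Fin m → Bool) → ℂ, ‖gloc (Rm m) (sm m) z w‖ ≤
      C * (∑ c, ‖z c‖ ^ 2) * (∑ c, ‖w c‖ ^ 2)) :
    ((∑ σ ∈ full n, ∑ τ ∈ full n, (hc σ τ) ^ m : ℤ) : ℝ) ≤
      C ^ n * ((n.factorial * (n + 1) ^ 2 ^ m : ℕ) : ℝ) ^ 2 := by
  have h1 : ∑ σ ∈ full n, ∑ τ ∈ full n, (hc σ τ) ^ m ≤
      ∑ σ : Equiv.Perm (Fin n), ∑ τ : Equiv.Perm (Fin n), (hc σ τ) ^ m := by
    refine (Finset.sum_le_sum fun σ _ => Finset.sum_le_sum_of_subset_of_nonneg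
      (Finset.subset_univ (full n)) fun τ _ _ => hm.pow_nonneg _).trans ?_
    exact Finset.sum_le_sum_of_subset_of_nonneg (Finset.subset_univ (full n)) fun σ _ _ =>
      Finset.sum_nonneg fun τ _ => hm.pow_nonneg _
  have h2 := gen_bound (Rm m) (sm m) C hC hloc (n := n)
  rw [← sum_hc_pow m hm, Complex.norm_intCast] at h2
  have h3 : Fintype.card (Fin m → Bool) = 2 ^ m := by simp
  rw [h3] at h2
  have h4 : ((∑ σ ∈ full n, ∑ τ ∈ full n, (hc σ τ) ^ m : ℤ) : ℝ) ≤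
      ((∑ σ : Equiv.Perm (Fin n), ∑ τ : Equiv.Perm (Fin n), (hc σ τ) ^ m : ℤ) : ℝ) := by
    exact_mod_cast h1
  exact h4.trans ((le_abs_self _).trans h2)

/-- The Cauchy-Schwarz inequality. -/
theorem sq_le_four (n : ℕ) : (∑ σ ∈ full n, ∑ τ ∈ full n, (hc σ τ) ^ 2) ^ 2 ≤
    ((nz n).card : ℤ) * ∑ σ ∈ full n, ∑ τ ∈ full n, (hc σ τ) ^ 4 := by
  rw [← Finset.sum_product', ← Finset.sum_product']
  have h1 : ∑ p ∈ full n ×ˢ full n, (hc p.1 p.2) ^ 2 = ∑ p ∈ nz n, (hc p.1 p.2) ^ 2 := by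
    unfold nz
    rw [Finset.sum_filter]
    refine Finset.sum_congr rfl fun p _ => ?_
    by_cases h : hc p.1 p.2 = 0
    · rw [h]
      simp
    · rw [if_pos h]
  have h2 : ∑ p ∈ full n ×ˢ full n, (hc p.1 p.2) ^ 4 = ∑ p ∈ nz n, ((hc p.1 p.2) ^ 2) ^ 2 := by
    unfold nz
    rw [Finset.sum_filter]
    refine Finset.sum_congr rfl fun p _ => ?_
    by_cases h : hc p.1 p.2 = 0
    · rw [h]
      simp
    · rw [if_pos h]
      ring
  rw [h1, h2]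
  exact sq_sum_le_card_mul_sum_sq

theorem card_full (hn : 3 ≤ n) : (full n).card = (n - 1).factorial := by
  unfold full
  rw [Equiv.Perm.card_of_cycleType_singleton (by omega) (by simp)]
  simp

theorem four_le (hn : 3 ≤ n) (hloc : ∀ z w : (Fin 4 → Bool) → ℂ, ‖gloc (Rm 4) (sm 4) z w‖ ≤
      21 / 8 * (∑ c, ‖z c‖ ^ 2) * (∑ c, ‖w c‖ ^ 2)) :
    ((∑ σ ∈ full n, ∑ τ ∈ full n, (hc σ τ) ^ 4 : ℤ) : ℝ) ≤
      ((n : ℝ) + 1) ^ 34 * (21 / 8) ^ n * ((full n).card : ℝ) ^ 2 := by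
  refine (full_pow_le 4 (by decide) (21 / 8) (by norm_num) hloc).trans ?_
  have h1 : n.factorial = n * (full n).card := by
    rw [card_full hn, Nat.mul_factorial_pred (by omega)]
  rw [h1]
  have h2 : (n : ℝ) ^ 2 ≤ ((n : ℝ) + 1) ^ 2 := pow_le_pow_left₀ (by positivity) (by linarith) 2
  have h3 : (0 : ℝ) ≤ (21 / 8) ^ n * (((n : ℝ) + 1) ^ 32 * ((full n).card : ℝ) ^ 2) := by
    positivity
  calc ((21 : ℝ) / 8) ^ n * ((n * (full n).card * (n + 1) ^ 2 ^ 4 : ℕ) : ℝ) ^ 2 =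
      (n : ℝ) ^ 2 * ((21 / 8) ^ n * (((n : ℝ) + 1) ^ 32 * ((full n).card : ℝ) ^ 2)) := by
        push_cast
        ring
    _ ≤ ((n : ℝ) + 1) ^ 2 * ((21 / 8) ^ n * (((n : ℝ) + 1) ^ 32 * ((full n).card : ℝ) ^ 2)) :=
        mul_le_mul_of_nonneg_right h2 h3
    _ = _ := by ring

theorem nz_four (hn : 3 ≤ n) (hloc : ∀ z w : (Fin 4 → Bool) → ℂ, ‖gloc (Rm 4) (sm 4) z w‖ ≤
      21 / 8 * (∑ c, ‖z c‖ ^ 2) * (∑ c, ‖w c‖ ^ 2)) :
    (6 / 7) ^ n * ((full n).card : ℝ) ^ 2 ≤ ((nz n).card : ℝ) * ((n : ℝ) + 1) ^ 34 := by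
  have h0 : (0 : ℝ) < ((full n).card : ℝ) ^ 2 := by
    rw [card_full hn]
    positivity
  have h1 : ((∑ σ ∈ full n, ∑ τ ∈ full n, (hc σ τ) ^ 2 : ℤ) : ℝ) ^ 2 ≤
      ((nz n).card : ℝ) * ((∑ σ ∈ full n, ∑ τ ∈ full n, (hc σ τ) ^ 4 : ℤ) : ℝ) := by
    exact_mod_cast sq_le_four n
  have h2 : ((3 : ℝ) / 2) ^ n * ((full n).card : ℝ) ^ 2 ≤
      ((∑ σ ∈ full n, ∑ τ ∈ full n, (hc σ τ) ^ 2 : ℤ) : ℝ) := by
    have h3 := main_ineq (n := n) (by omega)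
    have h4 := eo_ge (n := n) (by omega)
    have h5 := growth n
    have h6 : (((2 * ((∑ σ ∈ full n, ∑ τ ∈ full n, heo σ τ : ℕ) : ℤ) +
        (if Even n then 8 else -8) * ((full n).card : ℤ) ^ 2 : ℤ)) : ℝ) ≤
        ((∑ σ ∈ full n, ∑ τ ∈ full n, (hc σ τ) ^ 2 : ℤ) : ℝ) := by
      exact_mod_cast h3
    have h7 : (((2 * ((∑ σ ∈ full n, ∑ τ ∈ full n, heo σ τ : ℕ) : ℤ) +
        (if Even n then 8 else -8) * ((full n).card : ℤ) ^ 2 : ℤ)) : ℝ) =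
        2 * ((∑ σ ∈ full n, ∑ τ ∈ full n, heo σ τ : ℕ) : ℝ) +
      (if Even n then 8 else -8) * ((full n).card : ℝ) ^ 2 := by
      rw [Int.cast_add, Int.cast_mul, Int.cast_mul, Int.cast_pow, Int.cast_natCast,
        Int.cast_natCast]
      split_ifs <;> norm_num
    rw [h7] at h6
    have h8 : (2 * (((3 : ℝ) / 2) ^ n + (1 / 2) ^ n)) * ((full n).card : ℝ) ^ 2 ≤
        ((∑ σ ∈ full n, ∑ τ ∈ full n, heo σ τ : ℕ) : ℝ) :=
      (mul_le_mul_of_nonneg_right h5 (by positivity)).trans h4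
    have h9 : (-8 : ℝ) ≤ (if Even n then 8 else -8) := by split_ifs <;> norm_num
    have h10 : ((3 : ℝ) / 2) ^ 3 ≤ (3 / 2) ^ n := pow_le_pow_right₀ (by norm_num) hn
    have h11 : (0 : ℝ) ≤ (1 / 2) ^ n := by positivity
    have h12 : ((3 : ℝ) / 2) ^ n ≤ 4 * (((3 : ℝ) / 2) ^ n + (1 / 2) ^ n) +
        (if Even n then 8 else -8) := by
      norm_num at h10
      linarith
    refine (mul_le_mul_of_nonneg_right h12 h0.le).trans ?_
    linarith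
  have h3 := four_le hn hloc
  have h4 : (((3 : ℝ) / 2) ^ n * ((full n).card : ℝ) ^ 2) ^ 2 ≤
      ((nz n).card : ℝ) * (((n : ℝ) + 1) ^ 34 * (21 / 8) ^ n * ((full n).card : ℝ) ^ 2) :=
    (pow_le_pow_left₀ (by positivity) h2 2).trans
      (h1.trans (mul_le_mul_of_nonneg_left h3 (Nat.cast_nonneg _)))
  have h5 : (((3 : ℝ) / 2) ^ n) ^ 2 = (21 / 8) ^ n * (6 / 7) ^ n := by
    rw [← mul_pow, ← pow_mul, mul_comm n 2, pow_mul]
    norm_num
  have h6 : (0 : ℝ) < (21 / 8) ^ n * ((full n).card : ℝ) ^ 2 := by positivity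
  refine le_of_mul_le_mul_right ?_ h6
  calc (6 / 7) ^ n * ((full n).card : ℝ) ^ 2 * ((21 / 8) ^ n * ((full n).card : ℝ) ^ 2) =
      (((21 / 8) ^ n * (6 / 7) ^ n) * ((full n).card : ℝ) ^ 2 * ((full n).card : ℝ) ^ 2) := by
        ring
    _ = (((3 : ℝ) / 2) ^ n * ((full n).card : ℝ) ^ 2) ^ 2 := by
        rw [← h5]
        ring
    _ ≤ _ := h4
    _ = _ := by ring

end Pool.Agent.MP94v
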