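import Pool.Agent.Lib.MP_94c361_co_V.Bes
import Pool.Agent.Lib.MP_94c361_co_U.Defs

/-!
# MP_94c361_co: the local form of four copies in terms of words
-/

set_option autoImplicit false

open scoped BigOperators

namespace Pool.Agent.MP94v

open Pool.Agent.MP94u (bi sb)

/-- The local generating function of one vertex, four copies. -/
noncomputable def loc4 (z w : (Fin 4 → Bool) → ℂ) : ℂ :=
  ∑ T : Fin 4 → Bool, ∑ S : Fin 4 → Bool, ∑ T' : Fin 4 → Bool, ∑ S' : Fin 4 → Bool,
    if ∀ j, bi (T j) - bi (S j) = bi (T' j) - bi (S' j) then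
      (∏ j, sb (T j) * sb (T' j)) *
        (z T * (starRingEnd ℂ) (z S) * (w T' * (starRingEnd ℂ) (w S'))) else 0

/-- The coefficient of a letter. -/
noncomputable def cc (a : Fin 3) : ℂ := if a = 0 then 1 else if a = 1 then 1 / 2 else -(1 / 2)

/-- Matrix entries. -/
noncomputable def mm (a : Fin 3) (s t : Bool) : ℂ :=
  if t = xor s (decide (a ≠ 0)) then ff a s else 0

theorem site (t s t' s' : Bool) :
    ∑ a : Fin 3, cc a * (mm a s t * mm a s' t') =
      if bi t - bi s = bi t' - bi s' then sb t * sb t' else 0 := by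
  rw [Fin.sum_univ_three]
  cases t <;> cases s <;> cases t' <;> cases s' <;>
    simp [cc, mm, ff, bi, sb] <;> norm_num [Complex.ext_iff]

theorem rr_eq (a : W4) (z : L4 → ℂ) :
    rr a z = ∑ T, ∑ S, (∏ i, mm (a i) (S i) (T i)) * (z T * (starRingEnd ℂ) (z S)) := by
  rw [Finset.sum_comm]
  unfold rr vec
  refine Finset.sum_congr rfl fun S _ => ?_
  rw [Finset.sum_eq_single (sh a S)]
  · have h : ∏ i, mm (a i) (S i) (sh a S i) = ∏ i, ff (a i) (S i) := by
      refine Finset.prod_congr rfl fun i _ => ?_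
      simp [mm, sh]
    rw [h]
    ring
  · intro T _ hT
    have h : ∃ i, T i ≠ xor (S i) (decide (a i ≠ 0)) := by
      by_contra hc
      push Not at hc
      exact hT (funext hc)
    obtain ⟨i, hi⟩ := h
    rw [Finset.prod_eq_zero (Finset.mem_univ i) (by simp only [mm]; rw [if_neg hi]), zero_mul]
  · intro h
    exact absurd (Finset.mem_univ _) h

theorem loc4_eq (z w : L4 → ℂ) :
    loc4 z w = ∑ a : W4, (∏ i, cc (a i)) * (rr a z * rr a w) := by
  have h1 : ∀ T S T' S' : L4, (if ∀ j, bi (T j) - bi (S j) = bi (T' j) - bi (S' j) then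
      (∏ j, sb (T j) * sb (T' j)) *
        (z T * (starRingEnd ℂ) (z S) * (w T' * (starRingEnd ℂ) (w S'))) else 0) =
      ∑ a : W4, (∏ i, cc (a i) * (mm (a i) (S i) (T i) * mm (a i) (S' i) (T' i))) *
        (z T * (starRingEnd ℂ) (z S) * (w T' * (starRingEnd ℂ) (w S'))) := by
    intro T S T' S'
    have h2 : ∑ a : W4, (∏ i, cc (a i) * (mm (a i) (S i) (T i) * mm (a i) (S' i) (T' i))) =
        if ∀ j, bi (T j) - bi (S j) = bi (T' j) - bi (S' j) then
          (∏ j, sb (T j) * sb (T' j)) else 0 := by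
      have h3 := Finset.prod_univ_sum (fun _ : Fin 4 => (Finset.univ : Finset (Fin 3)))
        (fun i a => cc a * (mm a (S i) (T i) * mm a (S' i) (T' i)))
      rw [Fintype.piFinset_univ] at h3
      rw [← h3]
      simp only [site]
      rw [Finset.prod_ite_zero]
      simp
    rw [← Finset.sum_mul, h2]
    split_ifs <;> simp
  unfold loc4
  simp only [h1]
  have h4 : ∀ a : W4, (∏ i, cc (a i)) * (rr a z * rr a w) =
      ∑ T, ∑ S, ∑ T', ∑ S', (∏ i, cc (a i) * (mm (a i) (S i) (T i) * mm (a i) (S' i) (T' i))) *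
        (z T * (starRingEnd ℂ) (z S) * (w T' * (starRingEnd ℂ) (w S'))) := by
    intro a
    rw [rr_eq, rr_eq, Finset.sum_mul, Finset.mul_sum]
    refine Finset.sum_congr rfl fun T _ => ?_
    rw [Finset.sum_mul, Finset.mul_sum]
    refine Finset.sum_congr rfl fun S _ => ?_
    rw [Finset.mul_sum, Finset.mul_sum]
    refine Finset.sum_congr rfl fun T' _ => ?_
    rw [Finset.mul_sum, Finset.mul_sum]
    refine Finset.sum_congr rfl fun S' _ => ?_
    rw [Finset.prod_mul_distrib, Finset.prod_mul_distrib]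
    ring
  simp only [h4]
  symm
  rw [Finset.sum_comm]
  refine Finset.sum_congr rfl fun T _ => ?_
  rw [Finset.sum_comm]
  refine Finset.sum_congr rfl fun S _ => ?_
  rw [Finset.sum_comm]
  refine Finset.sum_congr rfl fun T' _ => ?_
  rw [Finset.sum_comm]

theorem ff_sh (a : Fin 3) (t : Bool) :
    (starRingEnd ℂ) (ff a (xor t (decide (a ≠ 0)))) = ff a t := by
  fin_cases a <;> cases t <;> simp [ff]

theorem rr_conj (a : W4) (z : L4 → ℂ) : (starRingEnd ℂ) (rr a z) = rr a z := by
  have h1 : rr a z = ∑ T, (starRingEnd ℂ) (z (sh a T)) * vec a z (sh a T) :=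
    ((shE a).sum_comp fun T => (starRingEnd ℂ) (z T) * vec a z T).symm
  conv_lhs => rw [h1]
  unfold rr
  rw [map_sum]
  refine Finset.sum_congr rfl fun T _ => ?_
  unfold vec
  rw [sh_sh, map_mul, map_mul, Complex.conj_conj, map_prod]
  have h2 : ∏ i, (starRingEnd ℂ) (ff (a i) (sh a T i)) = ∏ i, ff (a i) (T i) :=
    Finset.prod_congr rfl fun i _ => ff_sh (a i) (T i)
  rw [h2]
  ring

theorem norm_rr (a : W4) (z : L4 → ℂ) : ‖rr a z‖ = |(rr a z).re| := by
  have h := rr_conj a z
  rw [Complex.conj_eq_iff_real] at h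
  obtain ⟨r, hr⟩ := h
  rw [hr, Complex.norm_real, Complex.ofReal_re, Real.norm_eq_abs]

theorem norm_cc (a : W4) : ‖∏ i, cc (a i)‖ = ∏ i, (if a i = 0 then (1 : ℝ) else 1 / 2) := by
  rw [norm_prod]
  refine Finset.prod_congr rfl fun i _ => ?_
  unfold cc
  split_ifs <;> norm_num

theorem loc4_le_sum (z w : L4 → ℂ) :
    ‖loc4 z w‖ ≤ ∑ a : W4, (∏ i, (if a i = 0 then (1 : ℝ) else 1 / 2)) *
      (|(rr a z).re| * |(rr a w).re|) := by
  rw [loc4_eq]
  refine (norm_sum_le _ _).trans (le_of_eq ?_)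
  refine Finset.sum_congr rfl fun a _ => ?_
  rw [norm_mul, norm_mul, norm_cc, norm_rr, norm_rr]

end Pool.Agent.MP94v
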