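import Pool.Agent.Lib.MP_94c361_co_V.Cover
import Pool.Agent.Lib.MP_94c361_co_V.Form4

/-!
# MP_94c361_co: the local form of four copies is at most `21/8 |z|^2 |w|^2`
-/

set_option autoImplicit false

open scoped BigOperators

namespace Pool.Agent.MP94v

theorem wt_eq (a : W4) : (∏ i, (if a i = 0 then (1 : ℝ) else 1 / 2)) = (wt a : ℝ) / 16 := by
  unfold wt
  rw [Nat.cast_prod]
  have h : ∀ i, (if a i = 0 then (1 : ℝ) else 1 / 2) =
      ((if a i = 0 then 2 else 1 : ℕ) : ℝ) * (1 / 2) := by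
    intro i
    split_ifs <;> norm_num
  simp only [h]
  rw [Finset.prod_mul_distrib, Finset.prod_const]
  norm_num
  ring

theorem cover_sum (R : W4 → ℝ) (N : ℝ) (hR : ∀ a, 0 ≤ R a)
    (hc : ∀ {ι : Type} [Fintype ι] [DecidableEq ι] (w : ι → W4),
      (∀ i j, i ≠ j → Odd (hd (w i) (w j))) → ∑ i, R (w i) ≤ N) :
    ∑ a : W4, 8 * (wt a : ℝ) * R a ≤ 336 * N := by
  have h1 : ∑ a : W4, 8 * (wt a : ℝ) * R a ≤ ∑ a : W4, (cov a : ℝ) * R a := by
    refine Finset.sum_le_sum fun a _ => mul_le_mul_of_nonneg_right ?_ (hR a)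
    exact_mod_cast cov_ge a
  refine h1.trans ?_
  have hpt : ∀ b : W4, ∑ a : W4, (if b = a then (1 : ℝ) else 0) * R a = R b := by
    intro b
    simp
  have h2 : ∑ a : W4, (cov a : ℝ) * R a =
      22 * ∑ i : Fin 4, ∑ t : Fin 3, R (lineW i t)
      + 6 * ∑ p : Fin 4, ∑ m : Fin 3, ∑ b : Bool, ∑ j : Fin 3 × Bool, R (pathW p m b j)
      + ∑ s : Bool × Bool × Bool, ∑ v : Fin 3 × Fin 3, (lam v : ℝ) *
        ∑ w : Fin 3 × Fin 3, R (codeW s v w) := by
    unfold cov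
    push_cast
    simp only [add_mul, Finset.sum_add_distrib, mul_assoc, Finset.sum_mul, Finset.mul_sum]
    have e1 : ∑ a : W4, ∑ i : Fin 4, ∑ t : Fin 3,
        22 * ((if lineW i t = a then (1 : ℝ) else 0) * R a) =
        ∑ i : Fin 4, ∑ t : Fin 3, 22 * R (lineW i t) := by
      rw [Finset.sum_comm]
      refine Finset.sum_congr rfl fun i _ => ?_
      rw [Finset.sum_comm]
      refine Finset.sum_congr rfl fun t _ => ?_
      rw [← Finset.mul_sum, hpt]
    have e2 : ∑ a : W4, ∑ p : Fin 4, ∑ m : Fin 3, ∑ b : Bool, ∑ j : Fin 3 × Bool,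
        6 * ((if pathW p m b j = a then (1 : ℝ) else 0) * R a) =
        ∑ p : Fin 4, ∑ m : Fin 3, ∑ b : Bool, ∑ j : Fin 3 × Bool, 6 * R (pathW p m b j) := by
      rw [Finset.sum_comm]
      refine Finset.sum_congr rfl fun p _ => ?_
      rw [Finset.sum_comm]
      refine Finset.sum_congr rfl fun m _ => ?_
      rw [Finset.sum_comm]
      refine Finset.sum_congr rfl fun b _ => ?_
      rw [Finset.sum_comm]
      refine Finset.sum_congr rfl fun j _ => ?_
      rw [← Finset.mul_sum, hpt]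
    have e3 : ∑ a : W4, ∑ s : Bool × Bool × Bool, ∑ v : Fin 3 × Fin 3, ∑ w : Fin 3 × Fin 3,
        (lam v : ℝ) * ((if codeW s v w = a then (1 : ℝ) else 0) * R a) =
        ∑ s : Bool × Bool × Bool, ∑ v : Fin 3 × Fin 3, ∑ w : Fin 3 × Fin 3,
          (lam v : ℝ) * R (codeW s v w) := by
      rw [Finset.sum_comm]
      refine Finset.sum_congr rfl fun s _ => ?_
      rw [Finset.sum_comm]
      refine Finset.sum_congr rfl fun v _ => ?_
      rw [Finset.sum_comm]
      refine Finset.sum_congr rfl fun w _ => ?_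
      rw [← Finset.mul_sum, hpt]
    rw [e1, e2, e3]
  rw [h2]
  have c1 : ∑ i : Fin 4, ∑ t : Fin 3, R (lineW i t) ≤ 4 * N := by
    calc ∑ i : Fin 4, ∑ t : Fin 3, R (lineW i t) ≤ ∑ _i : Fin 4, N :=
          Finset.sum_le_sum fun i _ => hc (lineW i) (line_odd i)
      _ = 4 * N := by simp
  have c2 : ∑ p : Fin 4, ∑ m : Fin 3, ∑ b : Bool, ∑ j : Fin 3 × Bool, R (pathW p m b j) ≤
      24 * N := by
    calc ∑ p : Fin 4, ∑ m : Fin 3, ∑ b : Bool, ∑ j : Fin 3 × Bool, R (pathW p m b j) ≤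
          ∑ _p : Fin 4, ∑ _m : Fin 3, ∑ _b : Bool, N :=
          Finset.sum_le_sum fun p _ => Finset.sum_le_sum fun m _ => Finset.sum_le_sum fun b _ =>
            hc (pathW p m b) (path_odd p m b)
      _ = 24 * N := by simp; ring
  have c3 : ∑ s : Bool × Bool × Bool, ∑ v : Fin 3 × Fin 3, (lam v : ℝ) *
        ∑ w : Fin 3 × Fin 3, R (codeW s v w) ≤ 104 * N := by
    calc ∑ s : Bool × Bool × Bool, ∑ v : Fin 3 × Fin 3, (lam v : ℝ) *
          ∑ w : Fin 3 × Fin 3, R (codeW s v w) ≤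
          ∑ _s : Bool × Bool × Bool, ∑ v : Fin 3 × Fin 3, (lam v : ℝ) * N :=
          Finset.sum_le_sum fun s _ => Finset.sum_le_sum fun v _ =>
            mul_le_mul_of_nonneg_left (hc (codeW s v) (code_odd s v)) (Nat.cast_nonneg _)
      _ = 104 * N := by
          have : ∑ v : Fin 3 × Fin 3, lam v = 13 := by decide +kernel
          have h13 : ∑ v : Fin 3 × Fin 3, (lam v : ℝ) = 13 := by exact_mod_cast this
          simp only [← Finset.sum_mul, h13, Finset.sum_const, Finset.card_univ, Fintype.card_prod,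
            Fintype.card_bool, nsmul_eq_mul]
          push_cast
          ring
  linarith

theorem loc4_le (z w : (Fin 4 → Bool) → ℂ) :
    ‖loc4 z w‖ ≤ 21 / 8 * (∑ c, ‖z c‖ ^ 2) * (∑ c, ‖w c‖ ^ 2) := by
  have hb : ∀ u : L4 → ℂ, ∑ a : W4, (∏ i, (if a i = 0 then (1 : ℝ) else 1 / 2)) *
      |(rr a u).re| ^ 2 ≤ 21 / 8 * (∑ c, ‖u c‖ ^ 2) ^ 2 := by
    intro u
    have h := cover_sum (fun a => (rr a u).re ^ 2) ((∑ c, ‖u c‖ ^ 2) ^ 2)
      (fun a => sq_nonneg _) (fun w hw => clique w hw u)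
    have h2 : ∑ a : W4, (∏ i, (if a i = 0 then (1 : ℝ) else 1 / 2)) * |(rr a u).re| ^ 2 =
        (1 / 128) * ∑ a : W4, 8 * (wt a : ℝ) * (rr a u).re ^ 2 := by
      rw [Finset.mul_sum]
      refine Finset.sum_congr rfl fun a _ => ?_
      rw [wt_eq, sq_abs]
      ring
    rw [h2]
    linarith
  have hNz : 0 ≤ ∑ c, ‖z c‖ ^ 2 := Finset.sum_nonneg fun _ _ => sq_nonneg _
  have hNw : 0 ≤ ∑ c, ‖w c‖ ^ 2 := Finset.sum_nonneg fun _ _ => sq_nonneg _
  have hpos : ∀ a : W4, 0 ≤ ∏ i, (if a i = 0 then (1 : ℝ) else 1 / 2) := by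
    intro a
    refine Finset.prod_nonneg fun i _ => ?_
    split_ifs <;> norm_num
  refine (loc4_le_sum z w).trans ?_
  have h2 : (∑ a : W4, (∏ i, (if a i = 0 then (1 : ℝ) else 1 / 2)) *
      (|(rr a z).re| * |(rr a w).re|)) ^ 2 ≤
      (∑ a : W4, (∏ i, (if a i = 0 then (1 : ℝ) else 1 / 2)) * |(rr a z).re| ^ 2) *
        (∑ a : W4, (∏ i, (if a i = 0 then (1 : ℝ) else 1 / 2)) * |(rr a w).re| ^ 2) := by
    refine Finset.sum_sq_le_sum_mul_sum_of_sq_le_mul _ (fun a _ => ?_) (fun a _ => ?_)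
      (fun a _ => le_of_eq ?_)
    · exact mul_nonneg (hpos a) (sq_nonneg _)
    · exact mul_nonneg (hpos a) (sq_nonneg _)
    · ring
  refine abs_le_of_sq_le_sq' ?_ (by positivity) |>.2
  refine h2.trans ?_
  refine (mul_le_mul (hb z) (hb w) (Finset.sum_nonneg fun a _ =>
    mul_nonneg (hpos a) (sq_nonneg _)) (by positivity)).trans (le_of_eq ?_)
  ring

end Pool.Agent.MP94v
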