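import Pool.Agent.Lib.MP_94c361_co_V.FourthOf
import Pool.Agent.Lib.MP_94c361_co_V.Loc4

/-!
# MP_94c361_co: the fourth moment
-/

set_option autoImplicit false

open scoped BigOperators

namespace Pool.Agent.MP94h

theorem fourth (n : ℕ) (hn : 3 ≤ n) :
    ((∑ σ ∈ full n, ∑ τ ∈ full n, (hc σ τ) ^ 4 : ℤ) : ℝ) ≤
      ((n : ℝ) + 1) ^ 34 * (21 / 8) ^ n * ((full n).card : ℝ) ^ 2 :=
  fourth_of (fun z w => Pool.Agent.MP94v.loc4_le z w) n hn

end Pool.Agent.MP94h
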