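import Pool.Agent.Lib.MP_94c361_co_H.Abs
import Pool.Agent.Lib.MP_94c361_co_P.Pow

/-!
# MP_94c361_co: the fourth moment from the local bound
-/

set_option autoImplicit false

open scoped BigOperators

namespace Pool.Agent.MP94h

theorem fourth_of (hloc : ∀ z w : (Fin 4 → Bool) → ℂ, ‖Pool.Agent.MP94p.locm 4 z w‖ ≤
      21 / 8 * (∑ c, ‖z c‖ ^ 2) * (∑ c, ‖w c‖ ^ 2)) (n : ℕ) (hn : 3 ≤ n) :
    ((∑ σ ∈ full n, ∑ τ ∈ full n, (hc σ τ) ^ 4 : ℤ) : ℝ) ≤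
      ((n : ℝ) + 1) ^ 34 * (21 / 8) ^ n * ((full n).card : ℝ) ^ 2 := by
  have hcard : (full n).card = (n - 1).factorial := by
    unfold full
    rw [Equiv.Perm.card_of_cycleType_singleton (by omega) (by simp)]
    simp
  have hF : (n.factorial : ℝ) = n * ((full n).card : ℝ) := by
    rw [hcard, ← Nat.mul_factorial_pred (show n ≠ 0 by omega)]
    push_cast
    rfl
  have h1 := Pool.Agent.MP94p.upper_pow (m := 4) (by decide) (21 / 8) (by norm_num) hloc n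
  have h20 : ∀ σ τ : Equiv.Perm (Fin n), 0 ≤ (hc σ τ) ^ 4 := fun σ τ => by positivity
  have h2 : ∑ σ ∈ full n, ∑ τ ∈ full n, (hc σ τ) ^ 4 ≤
      ∑ σ : Equiv.Perm (Fin n), ∑ τ : Equiv.Perm (Fin n), (hc σ τ) ^ 4 := by
    refine le_trans (Finset.sum_le_sum fun σ _ =>
      Finset.sum_le_sum_of_subset_of_nonneg (Finset.subset_univ _) fun τ _ _ => h20 σ τ) ?_
    exact Finset.sum_le_sum_of_subset_of_nonneg (Finset.subset_univ _)
      fun σ _ _ => Finset.sum_nonneg fun τ _ => h20 σ τ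
  have h3 : ((∑ σ ∈ full n, ∑ τ ∈ full n, (hc σ τ) ^ 4 : ℤ) : ℝ) ≤
      ((∑ σ : Equiv.Perm (Fin n), ∑ τ : Equiv.Perm (Fin n), (hc σ τ) ^ 4 : ℤ) : ℝ) := by
    exact_mod_cast h2
  refine (h3.trans h1).trans ?_
  rw [hF]
  have h4 : (n : ℝ) ^ 2 ≤ ((n : ℝ) + 1) ^ 2 := by
    have : (0 : ℝ) ≤ n := Nat.cast_nonneg n
    nlinarith
  calc (21 / 8 : ℝ) ^ n * ((n : ℝ) * ((full n).card : ℝ) * ((n : ℝ) + 1) ^ 2 ^ 4) ^ 2 =
      (n : ℝ) ^ 2 * ((((n : ℝ) + 1) ^ 32 * (21 / 8) ^ n) * ((full n).card : ℝ) ^ 2) := by ring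
    _ ≤ ((n : ℝ) + 1) ^ 2 * ((((n : ℝ) + 1) ^ 32 * (21 / 8) ^ n) * ((full n).card : ℝ) ^ 2) :=
      mul_le_mul_of_nonneg_right h4 (by positivity)
    _ = _ := by ring

end Pool.Agent.MP94h
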