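import Mathlib

/-!
# MP_94c361_co: labellings with labels in any finite type
-/

set_option autoImplicit false

open scoped BigOperators

namespace Pool.Agent.MP94v

variable {κ : Type} [Fintype κ] [DecidableEq κ]

/-- The number of positions with label `c`. -/
def cnt {n : ℕ} (T : Fin n → κ) (c : κ) : ℕ :=
  (Finset.univ.filter (fun u => T u = c)).card

omit [Fintype κ] in
theorem cnt_eq_card {n : ℕ} (T : Fin n → κ) (c : κ) :
    cnt T c = Fintype.card {u // T u = c} := by
  rw [cnt, Fintype.card_subtype]

theorem cnt_of_perm {n : ℕ} {T S : Fin n → κ} {σ : Equiv.Perm (Fin n)}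
    (h : ∀ u, S (σ u) = T u) (c : κ) : cnt T c = cnt S c := by
  rw [cnt_eq_card, cnt_eq_card]
  refine Fintype.card_congr (σ.subtypeEquiv ?_)
  intro u
  rw [h u]

theorem exists_perm {n : ℕ} {T S : Fin n → κ} (h : ∀ c, cnt T c = cnt S c) :
    ∃ σ : Equiv.Perm (Fin n), ∀ u, S (σ u) = T u := by
  have e : ∀ c, Fintype.card {u // T u = c} = Fintype.card {v // S v = c} := by
    intro c
    rw [← cnt_eq_card, ← cnt_eq_card, h c]
  refine ⟨(Equiv.sigmaFiberEquiv T).symm.trans
    ((Equiv.sigmaCongrRight fun c => Fintype.equivOfCardEq (e c)).trans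
      (Equiv.sigmaFiberEquiv S)), ?_⟩
  intro u
  exact (Fintype.equivOfCardEq (e (T u)) ⟨u, rfl⟩).2

theorem count_perm {n : ℕ} (T S : Fin n → κ) :
    (Finset.univ.filter (fun σ : Equiv.Perm (Fin n) => ∀ u, S (σ u) = T u)).card =
      if (∀ c, cnt T c = cnt S c) then ∏ c, (cnt T c).factorial else 0 := by
  by_cases h : ∀ c, cnt T c = cnt S c
  · rw [if_pos h]
    obtain ⟨τ, hτ⟩ := exists_perm h
    have a1 : ∀ v, τ (τ⁻¹ v) = v := fun v => τ.apply_symm_apply v
    have a2 : ∀ u, τ⁻¹ (τ u) = u := fun u => τ.symm_apply_apply u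
    have h1 : (Finset.univ.filter (fun σ : Equiv.Perm (Fin n) => ∀ u, S (σ u) = T u)).card =
        Fintype.card {g : Equiv.Perm (Fin n) // S ∘ g = S} := by
      rw [Fintype.card_subtype]
      refine Finset.card_equiv (Equiv.mulRight τ⁻¹) ?_
      intro σ
      simp only [Finset.mem_filter, Finset.mem_univ, true_and, Equiv.coe_mulRight]
      constructor
      · intro hσ
        funext v
        have h2 := hσ (τ⁻¹ v)
        have h3 := hτ (τ⁻¹ v)
        simp only [Function.comp_apply, Equiv.Perm.mul_apply]
        rw [h2, ← h3, a1]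
      · intro hσ u
        have h2 := congrFun hσ (τ u)
        simp only [Function.comp_apply, Equiv.Perm.mul_apply, a2] at h2
        rw [h2, hτ]
    rw [h1, DomMulAct.stabilizer_card]
    refine Finset.prod_congr rfl ?_
    intro c _
    rw [← cnt_eq_card, h c]
  · rw [if_neg h, Finset.card_eq_zero, Finset.filter_eq_empty_iff]
    intro σ _ hσ
    exact h (cnt_of_perm hσ)

theorem sum_fact (n : ℕ) (hcp : ∀ T S : Fin n → κ,
      (Finset.univ.filter (fun σ : Equiv.Perm (Fin n) => ∀ u, S (σ u) = T u)).card =
        if (∀ c, cnt T c = cnt S c) then ∏ c, (cnt T c).factorial else 0) :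
    ∑ T : Fin n → κ, ∏ c, (cnt T c).factorial ≤ n.factorial * (n + 1) ^ Fintype.card κ := by
  classical
  have hle : ∀ (T : Fin n → κ) (c : κ), cnt T c < n + 1 := by
    intro T c
    have h := Finset.card_le_univ (Finset.univ.filter (fun u => T u = c))
    rw [Fintype.card_fin] at h
    exact Nat.lt_succ_of_le h
  let f : (Fin n → κ) → (κ → Fin (n + 1)) := fun T c => ⟨cnt T c, hle T c⟩
  have hf : ∀ T S : Fin n → κ, f S = f T ↔ ∀ c, cnt T c = cnt S c := by
    intro T S
    constructor
    · intro h c
      have h1 := congrFun h c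
      simp only [f, Fin.mk.injEq] at h1
      exact h1.symm
    · intro h
      funext c
      simp only [f, Fin.mk.injEq]
      exact (h c).symm
  -- the labellings with given counts contribute `n!` together
  have hfib : ∀ T : Fin n → κ,
      ∑ S ∈ Finset.univ.filter (fun S => f S = f T), ∏ c, (cnt S c).factorial = n.factorial := by
    intro T
    have h1 : ∑ S ∈ Finset.univ.filter (fun S => f S = f T), ∏ c, (cnt S c).factorial =
        ∑ S : Fin n → κ,
          (Finset.univ.filter (fun σ : Equiv.Perm (Fin n) => ∀ u, S (σ u) = T u)).card := by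
      rw [Finset.sum_filter]
      apply Finset.sum_congr rfl
      intro S _
      rw [hcp T S]
      by_cases h : f S = f T
      · rw [if_pos h, if_pos ((hf T S).1 h)]
        apply Finset.prod_congr rfl
        intro c _
        rw [(hf T S).1 h c]
      · rw [if_neg h, if_neg (fun h' => h ((hf T S).2 h'))]
    rw [h1]
    have h2 := Finset.sum_card_bipartiteAbove_eq_sum_card_bipartiteBelow
      (s := (Finset.univ : Finset (Fin n → κ)))
      (t := (Finset.univ : Finset (Equiv.Perm (Fin n))))
      (fun (S : Fin n → κ) (σ : Equiv.Perm (Fin n)) => ∀ u, S (σ u) = T u)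
    simp only [Finset.bipartiteAbove, Finset.bipartiteBelow] at h2
    rw [h2]
    have h3 : ∀ σ : Equiv.Perm (Fin n),
        (Finset.univ.filter (fun S : Fin n → κ => ∀ u, S (σ u) = T u)).card = 1 := by
      intro σ
      rw [Finset.card_eq_one]
      refine ⟨fun u => T (σ.symm u), ?_⟩
      ext S
      simp only [Finset.mem_filter, Finset.mem_univ, true_and, Finset.mem_singleton]
      constructor
      · intro h
        funext u
        have h4 := h (σ.symm u)
        rw [Equiv.apply_symm_apply] at h4
        exact h4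
      · rintro rfl u
        change T (σ.symm (σ u)) = T u
        rw [Equiv.symm_apply_apply]
    rw [Finset.sum_congr rfl (fun σ _ => h3 σ), Finset.sum_const, smul_eq_mul, mul_one,
      Finset.card_univ, Fintype.card_perm, Fintype.card_fin]
  rw [← Finset.sum_fiberwise (Finset.univ : Finset (Fin n → κ)) f]
  calc ∑ m : (κ → Fin (n + 1)),
        ∑ S ∈ Finset.univ.filter (fun S => f S = m), ∏ c, (cnt S c).factorial
      ≤ ∑ _m : (κ → Fin (n + 1)), n.factorial := by
        apply Finset.sum_le_sum
        intro m _
        rcases (Finset.univ.filter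
          (fun S : Fin n → κ => f S = m)).eq_empty_or_nonempty with h | ⟨T, hT⟩
        · rw [h, Finset.sum_empty]
          exact Nat.zero_le _
        · simp only [Finset.mem_filter, Finset.mem_univ, true_and] at hT
          rw [← hT]
          exact le_of_eq (hfib T)
    _ = n.factorial * (n + 1) ^ Fintype.card κ := by
        rw [Finset.sum_const, smul_eq_mul, Finset.card_univ, Fintype.card_fun, Fintype.card_fin,
          mul_comm]

end Pool.Agent.MP94v
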